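import Pool.Agent.H65.HX.SStm

/-!
# Project HX, scheme side: the column sums (parts CRA, CRB)
-/

set_option autoImplicit false
open Classical Finset

namespace Pool.Agent.H48.HX

open Pool.Agent.H39.HW (sm Av ln blk lab)
open Pool.Agent.H65.HX Pool.Agent.H65.HX.Sc

theorem sum_le_ico {s : Finset ℕ} {F : ℕ → ℝ} {C : ℝ} {m n : ℕ} (hs : s ⊆ Finset.Ico m n)
    (hC : 0 ≤ C) (hF : ∀ a ∈ s, F a ≤ C) : ∑ a ∈ s, F a ≤ ((n - m : ℕ) : ℝ) * C := by
  have h1 : ∑ a ∈ s, F a ≤ s.card • C := Finset.sum_le_card_nsmul s F C hF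
  have h2 : s.card ≤ n - m := by simpa using Finset.card_le_card hs
  rw [nsmul_eq_mul] at h1
  have h3 : (s.card : ℝ) ≤ ((n - m : ℕ) : ℝ) := by exact_mod_cast h2
  nlinarith

/-- numerical facts -/
theorem par_facts (x : Prm) (hx : Par x) :
    x.η ≤ 1 / 10 ^ 9 ∧ x.μ ≤ x.η ∧ 0 < x.θ ∧ 0 < x.μ ∧ x.g < x.K ∧
    0 < (x.v : ℝ) / x.D ∧
    ((x.K : ℝ) - x.g) * (x.v / x.D) ≤ (2 / 5 + x.η) * x.θ ∧
    0 < ((x.K : ℝ) - x.g) * (x.v / x.D) ∧
    x.K * x.μ ≤ 1 / 2 + x.η ∧ 1 / 2 - x.η ≤ x.K * x.μ ∧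
    x.M * x.μ ≤ 1 + x.η ∧ 1 / (100 * (x.L : ℝ)) ≤ 1 / 10 ^ 5 ∧ x.n0 * x.μ ≤ 1 / 10 ^ 9 ∧
    x.μ ≤ x.n0 * x.μ := by
  have n1 := hx.n1; have t0 := hx.t0; have th := hx.th; have m0 := hx.m0
  have hh : (1000 : ℝ) ≤ x.h := by exact_mod_cast hx.h1
  have hL : (4000 : ℝ) ≤ x.L := by
    have h1 := hx.L1
    have h2 := hx.h1
    have : 4000 ≤ x.L := by nlinarith
    exact_mod_cast this
  have hn2 : (1 : ℝ) ≤ x.n0 := by exact_mod_cast hx.n2
  have hnμ0 : 0 ≤ x.n0 * x.μ := by positivity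
  have hV : x.n0 * x.μ ≤ 1 / 10 ^ 12 := by
    have h1 := hx.V1
    have h2 : (1 : ℝ) ≤ x.L * x.h := by nlinarith
    have h3 : 1 * (x.n0 * x.μ) ≤ (x.L * x.h : ℝ) * (x.n0 * x.μ) :=
      mul_le_mul_of_nonneg_right h2 hnμ0
    have h4 : 10 ^ 12 * (x.L : ℝ) * x.h * (x.n0 * x.μ) =
        10 ^ 12 * ((x.L * x.h : ℝ) * (x.n0 * x.μ)) := by ring
    rw [h4] at h1
    linarith
  have hη : x.η ≤ 1 / 10 ^ 9 := by
    have := hx.V2
    linarith
  have hμη : x.μ ≤ x.η := by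
    have h1 := hx.e3
    have h2 : (0 : ℝ) ≤ x.e * x.μ := by positivity
    have h3 : x.η * x.θ ≤ x.η * 1 := mul_le_mul_of_nonneg_left (by linarith) n1.le
    nlinarith
  have hv0 : 0 < (x.v : ℝ) / x.D := by
    have h1 := hx.w0; have h2 := hx.w12; have h3 := hx.w1v; have h4 := hx.D1
    have h5 : (0 : ℝ) < x.v := by exact_mod_cast (by omega : 0 < x.v)
    have h6 : (0 : ℝ) < x.D := by exact_mod_cast (by omega : 0 < x.D)
    exact div_pos h5 h6
  have j2 := abs_le.1 hx.j2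
  have hX0 : 0 < ((x.K : ℝ) - x.g) * (x.v / x.D) := by
    have h1 : x.η * x.θ ≤ 1 / 5 * x.θ := mul_le_mul_of_nonneg_right (by linarith) t0.le
    nlinarith [j2.1]
  have hgK : x.g < x.K := by
    have h1 : 0 < (x.K : ℝ) - x.g := by
      by_contra hc
      push Not at hc
      exact absurd hX0 (not_lt.2 (mul_nonpos_of_nonpos_of_nonneg hc hv0.le))
    have : (x.g : ℝ) < x.K := by linarith
    exact_mod_cast this
  refine ⟨hη, hμη, t0, m0, hgK, hv0, by linarith [j2.2], hX0, by linarith [(abs_le.1 hx.k1).2],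
    by linarith [(abs_le.1 hx.k1).1], by linarith [(abs_le.1 hx.m1).2], ?_, by linarith, ?_⟩
  · apply one_div_le_one_div_of_le (by norm_num)
    linarith
  · have := mul_le_mul_of_nonneg_right hn2 m0.le
    linarith

/-- the demand of a middle block -/
theorem dem_adj (hB : S_BLK) (hC : S_CLD) (x : Prm) (hx : Par x) {a β : ℕ} (ha : a ∈ x.R)
    (hβ : β ∈ x.mid) (hc : β ∈ x.cls a) (hadj : x.adj a β) :
    x.dem a β = (x.v : ℝ) / x.D := by
  have h1 := (hC x hx a ha).2.2.2.1 β hc hadj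
  have h2 := Finset.mem_Ico.1 hβ
  rw [h1, (hB x hx).2.2.2.2.2.2.1 β h2.1 h2.2]

theorem cls_av (hC : S_CLD) (x : Prm) (hx : Par x) {a β : ℕ} (ha : a ∈ x.R)
    (hc : β ∈ x.cls a) : β < x.B ∧ Av x.st x.p a β := by
  have h1 := ((hC x hx a ha).1 β).1 hc
  exact ⟨h1.1, h1.2.1⟩

/-- the contribution of at most `K - g` adjacent rows -/
theorem adj_sum (hB : S_BLK) (hC : S_CLD) (x : Prm) (hx : Par x) {τ : Bool} {β : ℕ}
    (hβ : β ∈ x.mid) {s : Finset ℕ} {m : ℕ} (hs : s ⊆ Finset.Ico m (m + (x.K - x.g)))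
    (hsR : ∀ a ∈ s, a ∈ x.R ∧ β ∈ x.cls a ∧ x.adj a β) {T : ℝ} (hT : 0 ≤ T)
    (h : ∀ a ∈ s, x.fr τ a β * (((x.K : ℝ) - x.g) * (x.v / x.D)) ≤ T) :
    ∑ a ∈ s, x.fr τ a β * x.dem a β ≤ T := by
  obtain ⟨-, -, -, -, hKg, -⟩ := par_facts x hx
  have hKg' : (x.g : ℝ) < x.K := by exact_mod_cast hKg
  have hpos : (0 : ℝ) < (x.K : ℝ) - x.g := by linarith
  have h1 : ∀ a ∈ s, x.fr τ a β * x.dem a β ≤ T / ((x.K : ℝ) - x.g) := by
    intro a ha
    rw [dem_adj hB hC x hx (hsR a ha).1 hβ (hsR a ha).2.1 (hsR a ha).2.2, le_div_iff₀ hpos]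
    have := h a ha
    linarith [mul_comm ((x.K : ℝ) - x.g) ((x.v : ℝ) / x.D),
      mul_assoc (x.fr τ a β) ((x.v : ℝ) / x.D) ((x.K : ℝ) - x.g)]
  have h2 := sum_le_ico hs (div_nonneg hT hpos.le) h1
  have h3 : ((m + (x.K - x.g) - m : ℕ) : ℝ) = (x.K : ℝ) - x.g := by
    rw [Nat.add_sub_cancel_left, Nat.cast_sub (by omega)]
  rw [h3, mul_div_cancel₀ _ hpos.ne'] at h2
  exact h2

/-- the contribution of non-adjacent rows with the same fraction -/
theorem nadj_sum (hC : S_CLD) (x : Prm) (hx : Par x) {τ : Bool} {β : ℕ}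
    (hβ : β ∈ x.mid) {s : Finset ℕ} {m n : ℕ} (hs : s ⊆ Finset.Ico m n)
    (hsR : ∀ a ∈ s, a ∈ x.R ∧ β ∈ x.cls a ∧ ¬ x.adj a β) {f : ℝ} (hf : 0 ≤ f)
    (h : ∀ a ∈ s, x.fr τ a β ≤ f) :
    ∑ a ∈ s, x.fr τ a β * x.dem a β ≤ ((n - m : ℕ) : ℝ) * (f * ((3 / 5 + x.η) * x.θ * x.μ)) := by
  obtain ⟨hη, -, t0, m0, -⟩ := par_facts x hx
  have n1 := hx.n1
  have hP : 0 ≤ (3 / 5 + x.η) * x.θ * x.μ := by positivity
  apply sum_le_ico hs (mul_nonneg hf hP)
  intro a ha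
  obtain ⟨h1, h2, h3⟩ := hsR a ha
  have h4 := (hC x hx a h1).2.2.2.2.2.2 β h2 hβ h3
  have h5 : 0 ≤ x.dem a β := by
    refine le_trans ?_ h4.1
    have : 0 ≤ 3 / 5 - x.η := by linarith
    positivity
  calc x.fr τ a β * x.dem a β ≤ f * x.dem a β := mul_le_mul_of_nonneg_right (h a ha) h5
    _ ≤ _ := mul_le_mul_of_nonneg_left h4.2 hf

/-- no rows below the block -/
theorem below0 (hC : S_CLD) (hA : S_AVA) (x : Prm) (hx : Par x) {τ : Bool} {β : ℕ}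
    (hβ2 : β < x.K + x.g + 2) :
    ∑ a ∈ x.R.filter (fun a => a < β ∧ β ∈ x.cls a), x.fr τ a β * x.dem a β = 0 := by
  rw [Finset.filter_false_of_mem, Finset.sum_empty]
  rintro a haR ⟨hab, hac⟩
  obtain ⟨g1, g2⟩ := cls_av hC x hx haR hac
  have := (hA x hx a haR β g1).2.2.2.1 hab.le g2
  have h6 := Finset.mem_Icc.1 haR
  omega

theorem notR0 (x : Prm) {a : ℕ} (ha : a ∈ x.R) (h : a ∉ x.R0) :
    2 * a + 2 * x.n0 < x.B ∨ x.B + 2 * x.n0 < 2 * a := by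
  by_contra hc
  push Not at hc
  exact h (Finset.mem_filter.2 ⟨ha, hc.1, hc.2⟩)

/-- the rows below the block -/
theorem below (hB : S_BLK) (hC : S_CLD) (hA : S_AVA) (hZ : S_ZON) (x : Prm) (hx : Par x)
    {τ : Bool} {β : ℕ} (hβ : β ∈ x.mid) {f T : ℝ} (hf : 0 ≤ f) (hT : 0 ≤ T)
    (h0 : ∀ a ∈ x.R0, a < β → x.fr τ a β ≤ 1)
    (h1 : ∀ a ∈ x.R, a ∉ x.R0 → 2 * a < x.B → a + x.K < β → x.fr τ a β ≤ f)
    (h2 : ∀ a ∈ x.R0, a + x.g + 1 ≤ β → β ≤ a + x.K →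
      x.fr τ a β * (((x.K : ℝ) - x.g) * (x.v / x.D)) ≤ T)
    (h3 : ∀ a ∈ x.R, a ∉ x.R0 → 2 * a < x.B → a + x.g + 1 ≤ β → β ≤ a + x.K →
      x.fr τ a β * (((x.K : ℝ) - x.g) * (x.v / x.D)) ≤ T) :
    ∑ a ∈ x.R.filter (fun a => a < β ∧ β ∈ x.cls a), x.fr τ a β * x.dem a β ≤
      T + ((max (((β : ℝ) - x.B / 2) * x.μ) 0 + 3 * x.η) * f + 3 * (x.n0 * x.μ)) *
        (3 / 5 + x.η) * x.θ := by
  obtain ⟨hη, hμη, t0, m0, hKg, -, -, -, -, -, -, -, -, hn0⟩ := par_facts x hx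
  have n1 := hx.n1
  have hz := hZ x hx
  set s := x.R.filter (fun a => a < β ∧ β ∈ x.cls a) with hs
  have hmem : ∀ a ∈ s, a ∈ x.R ∧ a < β ∧ β ∈ x.cls a := by
    intro a ha
    rw [hs, Finset.mem_filter] at ha
    exact ⟨ha.1, ha.2.1, ha.2.2⟩
  have hb0 : x.b0 = x.K + x.J := rfl
  have hβm := Finset.mem_Ico.1 hβ
  have hlow : ∀ a ∈ x.R, a < β → β ∈ x.cls a → a ∉ x.R0 → 2 * a < x.B := by
    intro a haR hab hac hna
    obtain ⟨g1, g2⟩ := cls_av hC x hx haR hac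
    rcases notR0 x haR hna with h | h
    · omega
    · exfalso
      have := ((hz.2.2.2.2.2 a haR).2.1 h).2.2.2 β g1 hab g2
      omega
  have hadj : ∑ a ∈ s.filter (fun a => x.adj a β), x.fr τ a β * x.dem a β ≤ T := by
    apply adj_sum hB hC x hx hβ (m := β - x.K) _ _ hT
    · intro a ha
      obtain ⟨ha, had⟩ := Finset.mem_filter.1 ha
      obtain ⟨haR, hab, hac⟩ := hmem a ha
      obtain ⟨g1, g2⟩ := cls_av hC x hx haR hac
      have := (hA x hx a haR β g1).2.2.2.1 hab.le g2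
      by_cases hr : a ∈ x.R0
      · exact h2 a hr this had.1
      · exact h3 a haR hr (hlow a haR hab hac hr) this had.1
    · intro a ha
      obtain ⟨ha, had⟩ := Finset.mem_filter.1 ha
      obtain ⟨haR, hab, hac⟩ := hmem a ha
      obtain ⟨g1, g2⟩ := cls_av hC x hx haR hac
      have := (hA x hx a haR β g1).2.2.2.1 hab.le g2
      have h5 : β ≤ a + x.K := had.1
      rw [Finset.mem_Ico]
      omega
    · intro a ha
      obtain ⟨ha, had⟩ := Finset.mem_filter.1 ha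
      obtain ⟨haR, hab, hac⟩ := hmem a ha
      exact ⟨haR, hac, had⟩
  have hn1 : ∑ a ∈ (s.filter (fun a => ¬ x.adj a β)).filter (fun a => a ∈ x.R0),
      x.fr τ a β * x.dem a β ≤
      ((x.B / 2 + x.n0 + 1 - (x.B / 2 - x.n0) : ℕ) : ℝ) * (1 * ((3 / 5 + x.η) * x.θ * x.μ)) := by
    apply nadj_sum hC x hx hβ _ _ zero_le_one
    · intro a ha
      obtain ⟨ha, hr⟩ := Finset.mem_filter.1 ha
      obtain ⟨ha, had⟩ := Finset.mem_filter.1 ha
      obtain ⟨haR, hab, hac⟩ := hmem a ha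
      exact h0 a hr hab
    · intro a ha
      obtain ⟨ha, hr⟩ := Finset.mem_filter.1 ha
      obtain ⟨-, hr1, hr2⟩ := Finset.mem_filter.1 hr
      rw [Finset.mem_Ico]
      omega
    · intro a ha
      obtain ⟨ha, hr⟩ := Finset.mem_filter.1 ha
      obtain ⟨ha, had⟩ := Finset.mem_filter.1 ha
      obtain ⟨haR, hab, hac⟩ := hmem a ha
      exact ⟨haR, hac, had⟩
  have hn2 : ∑ a ∈ (s.filter (fun a => ¬ x.adj a β)).filter (fun a => ¬ a ∈ x.R0),
      x.fr τ a β * x.dem a β ≤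
      ((β - x.K - (x.K + 1) : ℕ) : ℝ) * (f * ((3 / 5 + x.η) * x.θ * x.μ)) := by
    apply nadj_sum hC x hx hβ _ _ hf
    · intro a ha
      obtain ⟨ha, hr⟩ := Finset.mem_filter.1 ha
      obtain ⟨ha, had⟩ := Finset.mem_filter.1 ha
      obtain ⟨haR, hab, hac⟩ := hmem a ha
      have h5 : ¬ (β ≤ a + x.K ∧ a ≤ β + x.K) := had
      exact h1 a haR hr (hlow a haR hab hac hr) (by omega)
    · intro a ha
      obtain ⟨ha, hr⟩ := Finset.mem_filter.1 ha
      obtain ⟨ha, had⟩ := Finset.mem_filter.1 ha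
      obtain ⟨haR, hab, hac⟩ := hmem a ha
      have h5 : ¬ (β ≤ a + x.K ∧ a ≤ β + x.K) := had
      have h6 := Finset.mem_Icc.1 haR
      rw [Finset.mem_Ico]
      omega
    · intro a ha
      obtain ⟨ha, hr⟩ := Finset.mem_filter.1 ha
      obtain ⟨ha, had⟩ := Finset.mem_filter.1 ha
      obtain ⟨haR, hab, hac⟩ := hmem a ha
      exact ⟨haR, hac, had⟩
  have hsplit := Finset.sum_filter_add_sum_filter_not s (fun a => x.adj a β)
    (fun a => x.fr τ a β * x.dem a β)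
  have hsplit2 := Finset.sum_filter_add_sum_filter_not (s.filter (fun a => ¬ x.adj a β))
    (fun a => a ∈ x.R0) (fun a => x.fr τ a β * x.dem a β)
  have hP : 0 ≤ (3 / 5 + x.η) * x.θ := by positivity
  have hc1 : ((x.B / 2 + x.n0 + 1 - (x.B / 2 - x.n0) : ℕ) : ℝ) * x.μ ≤ 3 * (x.n0 * x.μ) := by
    have h7 : x.B / 2 + x.n0 + 1 - (x.B / 2 - x.n0) ≤ 2 * x.n0 + 1 := by omega
    have h8 : ((x.B / 2 + x.n0 + 1 - (x.B / 2 - x.n0) : ℕ) : ℝ) ≤ 2 * (x.n0 : ℝ) + 1 := by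
      exact_mod_cast h7
    have h9 := mul_le_mul_of_nonneg_right h8 m0.le
    nlinarith
  have hc2 : ((β - x.K - (x.K + 1) : ℕ) : ℝ) * x.μ ≤
      max (((β : ℝ) - x.B / 2) * x.μ) 0 + 3 * x.η := by
    rcases le_total (2 * x.K + 1) β with h | h
    · have h7 : β - x.K - (x.K + 1) + (2 * x.K + 1) = β := by omega
      have h8 : ((β - x.K - (x.K + 1) : ℕ) : ℝ) + (2 * (x.K : ℝ) + 1) = β := by
        exact_mod_cast h7
      have h10 := le_max_left (((β : ℝ) - x.B / 2) * x.μ) 0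
      have h11 : ((β - x.K - (x.K + 1) : ℕ) : ℝ) * x.μ =
          ((β : ℝ) - x.B / 2) * x.μ + ((x.B : ℝ) / 2 * x.μ - 2 * x.K * x.μ) - x.μ := by
        have : ((β - x.K - (x.K + 1) : ℕ) : ℝ) = β - (2 * (x.K : ℝ) + 1) := by linarith
        rw [this]
        ring
      have h12 := (abs_le.1 hz.2.1).2
      rw [h11]
      linarith
    · have h7 : β - x.K - (x.K + 1) = 0 := by omega
      rw [h7]
      have := le_max_right (((β : ℝ) - x.B / 2) * x.μ) 0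
      simp only [Nat.cast_zero, zero_mul]
      linarith
  rw [← hsplit, ← hsplit2]
  calc _ ≤ T + (((x.B / 2 + x.n0 + 1 - (x.B / 2 - x.n0) : ℕ) : ℝ) *
          (1 * ((3 / 5 + x.η) * x.θ * x.μ)) +
        ((β - x.K - (x.K + 1) : ℕ) : ℝ) * (f * ((3 / 5 + x.η) * x.θ * x.μ))) :=
        add_le_add hadj (add_le_add hn1 hn2)
    _ = T + ((((x.B / 2 + x.n0 + 1 - (x.B / 2 - x.n0) : ℕ) : ℝ) * x.μ) *
          ((3 / 5 + x.η) * x.θ) +
        ((β - x.K - (x.K + 1) : ℕ) : ℝ) * x.μ * (f * ((3 / 5 + x.η) * x.θ))) := by ring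
    _ ≤ T + ((3 * (x.n0 * x.μ)) * ((3 / 5 + x.η) * x.θ) +
        (max (((β : ℝ) - x.B / 2) * x.μ) 0 + 3 * x.η) * (f * ((3 / 5 + x.η) * x.θ))) := by
        have e1 := mul_le_mul_of_nonneg_right hc1 hP
        have e2 := mul_le_mul_of_nonneg_right hc2 (mul_nonneg hf hP)
        linarith
    _ = _ := by ring

theorem gA_rigid (x : Prm) {l : ℝ} {a β : ℕ} (h : a ∈ x.R0) (hab : a < β) :
    x.gA l a β = 1 := by
  unfold Prm.gA
  rw [if_pos h, if_pos hab]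

theorem gA_adj (x : Prm) {l : ℝ} {a β : ℕ} (hr : a ∉ x.R0) (hβ : β ∈ x.mid) (h : x.adj a β) :
    x.gA l a β = l := by
  have h2 := Finset.mem_Ico.1 hβ
  unfold Prm.gA
  rw [if_neg hr, if_neg (by omega), if_neg (by omega), if_pos h]

theorem gA_nadj (x : Prm) {l : ℝ} {a β : ℕ} (hr : a ∉ x.R0) (hβ : β ∈ x.mid)
    (h : ¬ x.adj a β) : x.gA l a β = if 2 * a < x.B then 1 / 4 else 3 / 4 := by
  have h2 := Finset.mem_Ico.1 hβ
  unfold Prm.gA
  rw [if_neg hr, if_neg (by omega), if_neg (by omega), if_neg h]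

theorem fr_true (x : Prm) (a β : ℕ) : x.fr true a β = x.gA (x.lam a) a β := by
  unfold Prm.fr
  simp

theorem fr_false (x : Prm) (a β : ℕ) : x.fr false a β = 1 - x.gA (x.lam a) a β := by
  unfold Prm.fr
  simp

theorem adj_of (x : Prm) {a β : ℕ} (h1 : a ≤ β) (h2 : β ≤ a + x.K) : x.adj a β :=
  ⟨h2, by omega⟩

theorem nadj_of (x : Prm) {a β : ℕ} (h2 : a + x.K < β) : ¬ x.adj a β := by
  intro h
  have := h.1
  omega

/-- part CRA -/
theorem t_CRA (hL : S_LAM) (hD : S_DJN) (hZ : S_ZON) (hC : S_CLD) (hA : S_AVA) (hB : S_BLK) :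
    S_CRA := by
  intro x hx β hβ
  obtain ⟨hη, hμη, t0, m0, hKg, hv0, hX, hX0, hK1, hK2, hM, hL0, hn0, hn1⟩ := par_facts x hx
  have n1 := hx.n1
  have hz := hZ x hx
  have hβm := Finset.mem_Ico.1 hβ
  rcases Nat.lt_or_ge β (x.K + x.g + 2) with hlt | hge
  · rw [if_neg (by omega), below0 hC hA x hx hlt]
    positivity
  rw [if_pos hge]
  set y := ((β : ℝ) - x.B / 2) * x.μ with hy
  have hB1 := abs_le.1 hz.1
  have hB2 := abs_le.1 hz.2.1
  have hg1 := abs_le.1 hz.2.2.1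
  have hge' : (x.K : ℝ) + x.g + 2 ≤ β := by exact_mod_cast hge
  have hylow : - (10 * x.η) ≤ y := by
    have h1 : ((x.K : ℝ) + x.g - x.B / 2) * x.μ ≤ y :=
      mul_le_mul_of_nonneg_right (by linarith) m0.le
    nlinarith
  have hyup : y ≤ 1 / 2 + x.η := by
    have h1 : (β : ℝ) ≤ x.b1 := by exact_mod_cast hβm.2.le
    have h2 : (x.B : ℝ) = 2 * x.b1 - x.M := by
      have : (x.b1 : ℝ) = x.K + x.J + x.M := by unfold Prm.b1; push_cast; ring
      have h3 : (x.B : ℝ) = 2 * x.K + 2 * x.J + x.M := by unfold Prm.B; push_cast; ring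
      linarith
    have h4 : y ≤ ((x.M : ℝ) / 2) * x.μ := mul_le_mul_of_nonneg_right (by linarith) m0.le
    linarith
  have hT : 0 ≤ (13 / 40 + 3 / 20 * y + 22 * x.η + x.n0 * x.μ) * x.θ := by
    apply mul_nonneg _ t0.le
    have : 0 ≤ x.n0 * x.μ := by positivity
    linarith
  have key := below hB hC hA hZ x hx (τ := true) hβ (f := 1 / 4)
    (T := (13 / 40 + 3 / 20 * y + 22 * x.η + x.n0 * x.μ) * x.θ) (by norm_num) hT ?_ ?_ ?_ ?_
  · refine key.trans ?_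
    have hm0 := le_max_right y 0
    have hm1 := le_max_left y 0
    have hm2 : max y 0 ≤ 1 := max_le (by linarith) (by norm_num)
    rw [← hy]
    set Y := max y 0 with hY
    have hYη : Y * x.η ≤ 1 * x.η := mul_le_mul_of_nonneg_right hm2 n1.le
    have hηη : x.η * x.η ≤ 1 * x.η := mul_le_mul_of_nonneg_right (by linarith) n1.le
    have hnη : x.n0 * x.μ * x.η ≤ 1 * x.η := mul_le_mul_of_nonneg_right (by linarith) n1.le
    have hc : (13 / 40 + 3 / 20 * y + 22 * x.η + x.n0 * x.μ) +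
        ((Y + 3 * x.η) * (1 / 4) + 3 * (x.n0 * x.μ)) * (3 / 5 + x.η) ≤
        13 / 40 + 3 / 10 * Y + 1 / 1000 := by
      linarith
    have := mul_le_mul_of_nonneg_right hc t0.le
    linarith
  · intro a ha hab
    rw [fr_true, gA_rigid x ha hab]
  · intro a ha hr h2 h3
    rw [fr_true, gA_nadj x hr hβ (nadj_of x h3), if_pos h2]
  · intro a ha h1 h2
    rw [fr_true, gA_rigid x ha (by omega), one_mul]
    refine hX.trans ?_
    apply mul_le_mul_of_nonneg_right _ t0.le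
    obtain ⟨-, hr1, hr2⟩ := Finset.mem_filter.1 ha
    have h4 : (x.B : ℝ) ≤ 2 * a + 2 * x.n0 := by exact_mod_cast hr1
    have h5 : (a : ℝ) + x.g + 1 ≤ β := by exact_mod_cast h1
    have h6 : ((x.g : ℝ) - x.n0) * x.μ ≤ y := mul_le_mul_of_nonneg_right (by linarith) m0.le
    linarith
  · intro a ha hr h2 h3 h4
    rw [fr_true, gA_adj x hr hβ (adj_of x (by omega) h4)]
    obtain ⟨l0, l1, l2, -⟩ := hL x hx a ha hr
    obtain ⟨-, -, d3⟩ := hD x hx a ha hr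
    have l3 := (abs_le.1 (l2 h2)).1
    have h5 : (a : ℝ) + x.g + 1 ≤ β := by exact_mod_cast h3
    have h6 : (x.g : ℝ) * x.μ - y ≤ ((x.B : ℝ) / 2 - a) * x.μ := by
      have h7 : ((x.g : ℝ) - (β - x.B / 2)) * x.μ ≤ ((x.B : ℝ) / 2 - a) * x.μ :=
        mul_le_mul_of_nonneg_right (by linarith) m0.le
      linarith
    have h8 : (1 - x.lam a) * x.DJ a ≤ (1 - x.lam a) * (((x.K : ℝ) - x.g) * (x.v / x.D)) :=
      mul_le_mul_of_nonneg_left d3 (by linarith)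
    have h9 : (3 / 20 * ((x.g : ℝ) * x.μ - y)) * x.θ ≤
        3 / 20 * (((x.B : ℝ) / 2 - a) * x.μ) * x.θ :=
      mul_le_mul_of_nonneg_right (by linarith) t0.le
    have h10 : (3 / 20 * (1 / 2 - 2 * x.η - y)) * x.θ ≤ (3 / 20 * ((x.g : ℝ) * x.μ - y)) * x.θ :=
      mul_le_mul_of_nonneg_right (by linarith) t0.le
    have h11 : 0 ≤ x.n0 * x.μ * x.θ := by positivity
    have h12 : 0 ≤ x.η * x.θ := by positivity
    set X := ((x.K : ℝ) - x.g) * (x.v / x.D) with hXd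
    have h13 : x.lam a * X = X - (1 - x.lam a) * X := by ring
    rw [h13]
    linarith

/-- part CRB -/
theorem t_CRB (hL : S_LAM) (hD : S_DJN) (hZ : S_ZON) (hC : S_CLD) (hA : S_AVA) (hB : S_BLK) :
    S_CRB := by
  intro x hx β hβ
  obtain ⟨hη, hμη, t0, m0, hKg, hv0, hX, hX0, hK1, hK2, hM, hL0, hn0, hn1⟩ := par_facts x hx
  have n1 := hx.n1
  have hz := hZ x hx
  have hβm := Finset.mem_Ico.1 hβ
  rcases Nat.lt_or_ge β (x.K + x.g + 2) with hlt | hge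
  · rw [if_neg (by omega), below0 hC hA x hx hlt]
    positivity
  rw [if_pos hge]
  set y := ((β : ℝ) - x.B / 2) * x.μ with hy
  have hB1 := abs_le.1 hz.1
  have hB2 := abs_le.1 hz.2.1
  have hg1 := abs_le.1 hz.2.2.1
  have hge' : (x.K : ℝ) + x.g + 2 ≤ β := by exact_mod_cast hge
  have hyup : y ≤ 1 / 2 + x.η := by
    have h1 : (β : ℝ) ≤ x.b1 := by exact_mod_cast hβm.2.le
    have h2 : (x.B : ℝ) = 2 * x.b1 - x.M := by
      have : (x.b1 : ℝ) = x.K + x.J + x.M := by unfold Prm.b1; push_cast; ring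
      have h3 : (x.B : ℝ) = 2 * x.K + 2 * x.J + x.M := by unfold Prm.B; push_cast; ring
      linarith
    have h4 : y ≤ ((x.M : ℝ) / 2) * x.μ := mul_le_mul_of_nonneg_right (by linarith) m0.le
    linarith
  have hm0 := le_max_right y 0
  have hm1 := le_max_left y 0
  have hm2 : max y 0 ≤ 1 / 2 + x.η := max_le hyup (by linarith)
  have hT : 0 ≤ (1001 / 1000 * (3 / 20 * (1 / 2 - max y 0 + 4 * x.η) + 20 * x.η)) * x.θ := by
    apply mul_nonneg _ t0.le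
    linarith
  have key := below hB hC hA hZ x hx (τ := false) hβ (f := 3 / 4)
    (T := (1001 / 1000 * (3 / 20 * (1 / 2 - max y 0 + 4 * x.η) + 20 * x.η)) * x.θ)
    (by norm_num) hT ?_ ?_ ?_ ?_
  · refine key.trans ?_
    rw [← hy]
    set Y := max y 0 with hY
    have hYη : Y * x.η ≤ 1 * x.η := mul_le_mul_of_nonneg_right (by linarith) n1.le
    have hηη : x.η * x.η ≤ 1 * x.η := mul_le_mul_of_nonneg_right (by linarith) n1.le
    have hnη : x.n0 * x.μ * x.η ≤ 1 * x.η := mul_le_mul_of_nonneg_right (by linarith) n1.le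
    have hc : (1001 / 1000 * (3 / 20 * (1 / 2 - Y + 4 * x.η) + 20 * x.η)) +
        ((Y + 3 * x.η) * (3 / 4) + 3 * (x.n0 * x.μ)) * (3 / 5 + x.η) ≤
        3 / 40 + 3 / 10 * Y + 1 / 1000 := by
      linarith
    have := mul_le_mul_of_nonneg_right hc t0.le
    linarith
  · intro a ha hab
    rw [fr_false, gA_rigid x ha hab]
    norm_num
  · intro a ha hr h2 h3
    rw [fr_false, gA_nadj x hr hβ (nadj_of x h3), if_pos h2]
    norm_num
  · intro a ha h1 h2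
    rw [fr_false, gA_rigid x ha (by omega)]
    simpa using hT
  · intro a ha hr h2 h3 h4
    rw [fr_false, gA_adj x hr hβ (adj_of x (by omega) h4)]
    obtain ⟨l0, l1, l2, -⟩ := hL x hx a ha hr
    obtain ⟨d1, -, d3⟩ := hD x hx a ha hr
    have l3 := (abs_le.1 (l2 h2)).2
    have h5 : (β : ℝ) ≤ a + x.K := by exact_mod_cast h4
    have h6 : ((x.B : ℝ) / 2 - a) * x.μ ≤ x.K * x.μ - y := by
      have h7 : ((x.B : ℝ) / 2 - a) * x.μ ≤ ((x.K : ℝ) - (β - x.B / 2)) * x.μ :=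
        mul_le_mul_of_nonneg_right (by linarith) m0.le
      linarith
    have haR := Finset.mem_Icc.1 ha
    have h8 : ((x.B : ℝ) / 2 - a) * x.μ ≤ (x.B : ℝ) / 2 * x.μ - x.K * x.μ := by
      have h7 : (x.K : ℝ) + 1 ≤ a := by exact_mod_cast haR.1
      have h9 : ((x.B : ℝ) / 2 - a) * x.μ ≤ ((x.B : ℝ) / 2 - x.K) * x.μ :=
        mul_le_mul_of_nonneg_right (by linarith) m0.le
      linarith
    have h9 : ((x.B : ℝ) / 2 - a) * x.μ ≤ 1 / 2 - max y 0 + 4 * x.η := by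
      rcases le_total y 0 with h | h
      · rw [max_eq_right h]
        linarith
      · rw [max_eq_left h]
        linarith
    have hXD : ((x.K : ℝ) - x.g) * (x.v / x.D) ≤ 1001 / 1000 * x.DJ a := by
      have e1 : (2 / 5 + x.η) * x.θ ≤
          1001 / 1000 * ((2 / 5 - 3 * x.η - 1 / (100 * x.L)) * x.θ) := by
        have : 2 / 5 + x.η ≤ 1001 / 1000 * (2 / 5 - 3 * x.η - 1 / (100 * x.L)) := by linarith
        have := mul_le_mul_of_nonneg_right this t0.le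
        linarith
      linarith
    have h10 : (1 - x.lam a) * (((x.K : ℝ) - x.g) * (x.v / x.D)) ≤
        (1 - x.lam a) * (1001 / 1000 * x.DJ a) :=
      mul_le_mul_of_nonneg_left hXD (by linarith)
    have h11 : 3 / 20 * (((x.B : ℝ) / 2 - a) * x.μ) * x.θ ≤
        3 / 20 * (1 / 2 - max y 0 + 4 * x.η) * x.θ :=
      mul_le_mul_of_nonneg_right (by linarith) t0.le
    linarith

end Pool.Agent.H48.HX
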